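import Pool.Agent.Helper75.CR.St2

/-! # Module N5 of project CR: a pair with different letters -/

set_option autoImplicit false

namespace Pool.Agent.Helper47.CR

open Pool.Agent.Helper75.CR Helper1.IM

theorem prd_append_left {s : Wd} (t : Wd) (h : Prd s) : Prd (s ++ t) := by
  obtain ⟨i, h1, h2⟩ := h
  exact ⟨i, List.mem_append_left _ h1, List.mem_append_left _ h2⟩

theorem prd_XY (i : ℕ) : Prd [X i, Y i] := ⟨i, by simp [X], by simp [Y]⟩

theorem aux (ρ : FIC) (h3 : P3 ρ) (w w' : Wd) (h : ρ.r w w') (j : ℕ) (hj : j ∈ ct w')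
    (hj' : j ∉ ct w) : ZZ ρ := by
  -- first substitution
  set f : ℕ → Wd := fun i => if i = j then [X 1] else [X 0, Y 0] with hf
  have hf0 : ∀ i, f i ≠ [] := by
    intro i
    simp only [hf]
    split_ifs <;> simp
  have h1 : ρ.r ([X 0, Y 0] ++ sb f w) ([X 0, Y 0] ++ sb f w') := ρ.mulL _ (ρ.sub' f hf0 h)
  have c0 : ct ([X 0, Y 0] : Wd) = {0} := by ext i; simp [ct]
  have c1 : ct ([X 1] : Wd) = {1} := by ext i; simp [ct]
  have cE : ct ([X 0, Y 0] ++ [X 1, Y 1] : Wd) = {0, 1} := by ext i; simp [ct]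
  have cE' : ct ([X 1, Y 1] ++ [X 0, Y 0] : Wd) = {0, 1} := by ext i; simp [ct]; tauto
  have cL : ct ([X 0, Y 0] ++ sb f w) = {0} := by
    rw [ct_append, c0, ct_sb]
    ext i
    simp only [Finset.mem_union, Finset.mem_singleton, Finset.mem_biUnion]
    constructor
    · rintro (h | ⟨k, hk, h⟩)
      · exact h
      · have : k ≠ j := fun hh => hj' (hh ▸ hk)
        simp only [hf, this, if_false, c0, Finset.mem_singleton] at h
        exact h
    · intro h
      exact Or.inl h
  have cR : ct ([X 0, Y 0] ++ sb f w') = {0, 1} := by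
    rw [ct_append, c0, ct_sb]
    ext i
    simp only [Finset.mem_union, Finset.mem_singleton, Finset.mem_biUnion, Finset.mem_insert]
    constructor
    · rintro (h | ⟨k, hk, h⟩)
      · exact Or.inl h
      · by_cases hkj : k = j
        · simp only [hf, hkj, if_true, c1, Finset.mem_singleton] at h
          exact Or.inr h
        · simp only [hf, hkj, if_false, c0, Finset.mem_singleton] at h
          exact Or.inl h
    · rintro (h | h)
      · exact Or.inl h
      · refine Or.inr ⟨j, hj, ?_⟩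
        simp only [hf, if_true, c1, Finset.mem_singleton]
        exact h
  have h2 : ρ.r [X 0, Y 0] ([X 0, Y 0] ++ [X 1, Y 1]) := by
    refine ρ.trans' (h3 _ _ (prd_XY 0) (prd_append_left _ (prd_XY 0)) (c0.trans cL.symm)) ?_
    exact ρ.trans' h1 (h3 _ _ (prd_append_left _ (prd_XY 0)) (prd_append_left _ (prd_XY 0))
      (cR.trans cE.symm))
  have h4 : ρ.r [X 1, Y 1] ([X 1, Y 1] ++ [X 0, Y 0]) := by
    have := ρ.sub' (fun i => if i = 0 then [X 1] else [X 0]) (fun i => by split_ifs <;> simp) h2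
    simpa [sb, X, Y, fl, st] using this
  have h5 : ρ.r [X 0, Y 0] [X 1, Y 1] := by
    refine ρ.trans' h2 (ρ.symm' (ρ.trans' h4 ?_))
    exact h3 _ _ (prd_append_left _ (prd_XY 1)) (prd_append_left _ (prd_XY 0)) (cE'.trans cE.symm)
  intro s t hs ht
  have hs0 : s ≠ [] := by
    rintro rfl
    obtain ⟨i, h1, -⟩ := hs
    simp at h1
  have ht0 : t ≠ [] := by
    rintro rfl
    obtain ⟨i, h1, -⟩ := ht
    simp at h1
  have h6 : ρ.r (s ++ st s) (t ++ st t) := by
    have := ρ.sub' (fun i => if i = 0 then s else t) (fun i => by split_ifs <;> assumption) h5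
    simpa using this
  have h7 : ∀ s : Wd, Prd s → ρ.r s (s ++ st s) := fun s hs =>
    h3 _ _ hs (prd_append_left _ hs) (by simp)
  exact ρ.trans' (h7 s hs) (ρ.trans' h6 (ρ.symm' (h7 t ht)))

/-- Module N5. -/
theorem hN5 : StN5 := by
  intro ρ h3 w w' _ h hct
  by_cases h1 : ∃ j ∈ ct w', j ∉ ct w
  · obtain ⟨j, hj, hj'⟩ := h1
    exact aux ρ h3 w w' h j hj hj'
  · by_cases h2 : ∃ j ∈ ct w, j ∉ ct w'
    · obtain ⟨j, hj, hj'⟩ := h2
      exact aux ρ h3 w' w (ρ.symm' h) j hj hj'
    · exfalso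
      apply hct
      push Not at h1 h2
      exact Finset.Subset.antisymm h2 h1

end Pool.Agent.Helper47.CR
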